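import Pool.Agent.Helper92.MQ.Main

/-!
# Almost all twists over multiquadratic fields: counting the exceptional twists (helper92)
-/

set_option autoImplicit false

open NumberField IsDedekindDomain Complex Filter Topology
open scoped ENNReal

namespace Pool.Agent.Helper92.AF

open Pool.Agent.Y19.QT (zcount)
open Pool.Agent.Helper92.MQ (sf box mem_box box_card_le sqf_card_le)

/-- one of the L-functions has a zero at distance at least `θ` from the line, at height at most `U` -/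
def FarT (F : ℤ → ℂ → ℂ) {m : ℕ} (d : Fin m → ℤ) (θ U : ℝ) : Prop :=
  ∃ S : Finset (Fin m), S.Nonempty ∧ ∃ ρ : ℂ, F (sf (∏ i ∈ S, d i)) ρ = 0 ∧ 1 + θ ≤ ρ.re ∧ |ρ.im| ≤ U

lemma one_le_zcount {F : ℂ → ℂ} (hF : Differentiable ℂ F) {σ U : ℝ} {ρ : ℂ} (h0 : F ρ = 0) (h1 : σ ≤ ρ.re)
    (h2 : |ρ.im| ≤ U) : 1 ≤ zcount F σ U := by
  unfold zcount
  refine le_trans ?_ (ENNReal.le_tsum ρ)
  rw [if_pos ⟨h0, h1, h2⟩]
  have h3 : analyticOrderAt F ρ ≠ 0 := fun h => ((hF.analyticAt ρ).analyticOrderAt_eq_zero.1 h) h0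
  have h4 : (1 : ℕ∞) ≤ analyticOrderAt F ρ := Order.one_le_iff_pos.2 (pos_iff_ne_zero.2 h3)
  exact_mod_cast ENat.toENNReal_mono h4

theorem count_far {m : ℕ} {F : ℤ → ℂ → ℂ} (hF : ∀ D : ℤ, Squarefree D → Differentiable ℂ (F D))
    (hden : ∃ (C c : ℝ) (A B : ℕ), 0 < C ∧ 0 < c ∧ ∀ (X : ℕ) (σ U : ℝ), 3 ≤ X → 1 ≤ σ → 0 ≤ U →
      ∀ S : Finset (Fin m), S.Nonempty →
      ∑ d ∈ box (Fin m) X, zcount (F (sf (∏ i ∈ S, d i))) σ U ≤
        ENNReal.ofReal (C * (1 + U) ^ B * (X : ℝ) ^ (m - c * (σ - 1)) * Real.log X ^ A))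
    {θ : ℝ} (hθ : 0 < θ) :
    ∃ C β δ : ℝ, 0 < C ∧ 0 < β ∧ 0 < δ ∧ ∀ (X : ℕ) (T : Finset (Fin m → ℤ)), 3 ≤ X →
      T ⊆ box (Fin m) X → (∀ d ∈ T, FarT F d θ (3 * (X : ℝ) ^ β)) → (T.card : ℝ) ≤ C * (X : ℝ) ^ (m - δ) := by
  classical
  obtain ⟨C, c, A, B, hC, hc, H⟩ := hden
  obtain ⟨e, he⟩ : ∃ e : ℝ, e = c * θ / (4 * (A + 1)) := ⟨_, rfl⟩
  have he0 : 0 < e := by rw [he]; positivity
  obtain ⟨β, hβ⟩ : ∃ β : ℝ, β = c * θ / (4 * (B + 1)) := ⟨_, rfl⟩
  have hβ0 : 0 < β := by rw [hβ]; positivity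
  refine ⟨2 ^ m * (C * 4 ^ B * (1 / e) ^ A), β, c * θ / 2, by positivity, hβ0, by positivity, ?_⟩
  intro X T hX hT hfar
  have hX1 : (1 : ℝ) ≤ X := by exact_mod_cast (by omega : 1 ≤ X)
  have hX0 : (0 : ℝ) < X := by linarith
  have hXβ : (1 : ℝ) ≤ (X : ℝ) ^ β := Real.one_le_rpow hX1 hβ0.le
  have hlog : 0 ≤ Real.log X := Real.log_nonneg hX1
  have h1 : (C * (1 + 3 * (X : ℝ) ^ β) ^ B * (X : ℝ) ^ (m - c * (1 + θ - 1)) * Real.log X ^ A) ≤
      (C * 4 ^ B * (1 / e) ^ A) * (X : ℝ) ^ (m - c * θ / 2) := by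
    have h2 : (1 + 3 * (X : ℝ) ^ β) ^ B ≤ 4 ^ B * (X : ℝ) ^ (c * θ / 4) := by
      calc (1 + 3 * (X : ℝ) ^ β) ^ B ≤ (4 * (X : ℝ) ^ β) ^ B :=
            pow_le_pow_left₀ (by positivity) (by linarith) B
        _ = 4 ^ B * (X : ℝ) ^ (β * B) := by
            rw [mul_pow, Real.rpow_mul hX0.le, Real.rpow_natCast]
        _ ≤ 4 ^ B * (X : ℝ) ^ (c * θ / 4) := by
            apply mul_le_mul_of_nonneg_left _ (by positivity)
            apply Real.rpow_le_rpow_of_exponent_le hX1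
            rw [hβ, div_mul_eq_mul_div, div_le_div_iff₀ (by positivity) (by norm_num)]
            have : 0 ≤ c * θ := by positivity
            nlinarith
    have h3 : Real.log X ^ A ≤ (1 / e) ^ A * (X : ℝ) ^ (c * θ / 4) := by
      have h4 : Real.log X ≤ (X : ℝ) ^ e / e := Real.log_le_rpow_div hX0.le he0
      calc Real.log X ^ A ≤ ((X : ℝ) ^ e / e) ^ A := pow_le_pow_left₀ hlog h4 A
        _ = (1 / e) ^ A * (X : ℝ) ^ (e * A) := by
            rw [Real.rpow_mul hX0.le, Real.rpow_natCast, ← mul_pow]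
            congr 1
            ring
        _ ≤ (1 / e) ^ A * (X : ℝ) ^ (c * θ / 4) := by
            apply mul_le_mul_of_nonneg_left _ (by positivity)
            apply Real.rpow_le_rpow_of_exponent_le hX1
            rw [he, div_mul_eq_mul_div, div_le_div_iff₀ (by positivity) (by norm_num)]
            have : 0 ≤ c * θ := by positivity
            nlinarith
    have h5 : (X : ℝ) ^ ((m : ℝ) - c * θ / 2) =
        (X : ℝ) ^ (c * θ / 4) * (X : ℝ) ^ ((m : ℝ) - c * (1 + θ - 1)) * (X : ℝ) ^ (c * θ / 4) := by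
      rw [← Real.rpow_add hX0, ← Real.rpow_add hX0]
      congr 1
      ring
    rw [h5]
    calc C * (1 + 3 * (X : ℝ) ^ β) ^ B * (X : ℝ) ^ ((m : ℝ) - c * (1 + θ - 1)) * Real.log X ^ A
        ≤ C * (4 ^ B * (X : ℝ) ^ (c * θ / 4)) * (X : ℝ) ^ ((m : ℝ) - c * (1 + θ - 1)) *
          ((1 / e) ^ A * (X : ℝ) ^ (c * θ / 4)) := by gcongr
      _ = _ := by ring
  have h6 : (T.card : ℝ≥0∞) ≤ 2 ^ m * ENNReal.ofReal ((C * 4 ^ B * (1 / e) ^ A) * (X : ℝ) ^ (m - c * θ / 2)) := by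
    calc (T.card : ℝ≥0∞) = ∑ d ∈ T, (1 : ℝ≥0∞) := by simp
      _ ≤ ∑ d ∈ T, ∑ S ∈ Finset.univ.filter (fun S : Finset (Fin m) => S.Nonempty),
            zcount (F (sf (∏ i ∈ S, d i))) (1 + θ) (3 * (X : ℝ) ^ β) := by
          refine Finset.sum_le_sum fun d hd => ?_
          obtain ⟨S, hS, ρ, h7, h8, h9⟩ := hfar d hd
          exact (one_le_zcount (hF _ (Pool.Agent.Helper92.MQ.sf_squarefree _)) h7 h8 h9).trans
            (Finset.single_le_sum
            (f := fun S => zcount (F (sf (∏ i ∈ S, d i))) (1 + θ) (3 * (X : ℝ) ^ β))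
            (fun _ _ => zero_le) (Finset.mem_filter.2 ⟨Finset.mem_univ S, hS⟩))
      _ = ∑ S ∈ Finset.univ.filter (fun S : Finset (Fin m) => S.Nonempty),
            ∑ d ∈ T, zcount (F (sf (∏ i ∈ S, d i))) (1 + θ) (3 * (X : ℝ) ^ β) := Finset.sum_comm
      _ ≤ ∑ S ∈ Finset.univ.filter (fun S : Finset (Fin m) => S.Nonempty),
            ∑ d ∈ box (Fin m) X, zcount (F (sf (∏ i ∈ S, d i))) (1 + θ) (3 * (X : ℝ) ^ β) :=
          Finset.sum_le_sum fun S _ => Finset.sum_le_sum_of_subset hT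
      _ ≤ ∑ S ∈ Finset.univ.filter (fun S : Finset (Fin m) => S.Nonempty),
            ENNReal.ofReal ((C * 4 ^ B * (1 / e) ^ A) * (X : ℝ) ^ (m - c * θ / 2)) :=
          Finset.sum_le_sum fun S hS => (H X (1 + θ) (3 * (X : ℝ) ^ β) hX (by linarith) (by positivity) S
            (Finset.mem_filter.1 hS).2).trans (ENNReal.ofReal_le_ofReal h1)
      _ ≤ 2 ^ m * ENNReal.ofReal ((C * 4 ^ B * (1 / e) ^ A) * (X : ℝ) ^ (m - c * θ / 2)) := by
          rw [Finset.sum_const, nsmul_eq_mul]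
          refine mul_le_mul_left ?_ _
          have h3 := Finset.card_filter_le (Finset.univ : Finset (Finset (Fin m)))
            (fun S => S.Nonempty)
          rw [Finset.card_univ, Fintype.card_finset, Fintype.card_fin] at h3
          exact_mod_cast h3
  have h7 : (2 : ℝ≥0∞) ^ m = ENNReal.ofReal (2 ^ m) := by
    rw [ENNReal.ofReal_pow (by norm_num)]
    norm_num
  rw [h7, ← ENNReal.ofReal_mul (by positivity)] at h6
  have h8 : (T.card : ℝ≥0∞) = ENNReal.ofReal (T.card : ℝ) := by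
    rw [ENNReal.ofReal_natCast]
  rw [h8] at h6
  have h9 := (ENNReal.ofReal_le_ofReal_iff (by positivity)).1 h6
  linarith [h9]

/-- the count with explicit dependence on the height -/
theorem count_U {m : ℕ} {F : ℤ → ℂ → ℂ} (hF : ∀ D : ℤ, Squarefree D → Differentiable ℂ (F D))
    {C c : ℝ} {A B : ℕ} (hC : 0 < C) (hc : 0 < c)
    (H : ∀ (X : ℕ) (σ U : ℝ), 3 ≤ X → 1 ≤ σ → 0 ≤ U → ∀ S : Finset (Fin m), S.Nonempty →
      ∑ d ∈ box (Fin m) X, zcount (F (sf (∏ i ∈ S, d i))) σ U ≤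
        ENNReal.ofReal (C * (1 + U) ^ B * (X : ℝ) ^ (m - c * (σ - 1)) * Real.log X ^ A))
    {θ θ' R : ℝ} (hθ' : 0 ≤ θ') (hθ : θ' < θ) (hR : 0 ≤ R) :
    ∃ C1 : ℝ, 0 < C1 ∧ ∀ (X : ℕ) (T : Finset (Fin m → ℤ)) (U : ℝ), 3 ≤ X → 1 ≤ U →
      T ⊆ box (Fin m) X → (∀ d ∈ T, FarT F d θ (U + R)) →
      (T.card : ℝ) ≤ C1 * U ^ B * (X : ℝ) ^ (m - c * θ') := by
  classical
  obtain ⟨e, he⟩ : ∃ e : ℝ, e = c * (θ - θ') / (A + 1) := ⟨_, rfl⟩
  have hgap : 0 < c * (θ - θ') := mul_pos hc (by linarith)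
  have he0 : 0 < e := by rw [he]; positivity
  refine ⟨2 ^ m * (C * (2 + R) ^ B * (1 / e) ^ A), by positivity, ?_⟩
  intro X T U hX hU hT hfar
  have hX1 : (1 : ℝ) ≤ X := by exact_mod_cast (by omega : 1 ≤ X)
  have hX0 : (0 : ℝ) < X := by linarith
  have hU0 : (0 : ℝ) < U := by linarith
  have hlog : 0 ≤ Real.log X := Real.log_nonneg hX1
  have h1 : (C * (1 + (U + R)) ^ B * (X : ℝ) ^ (m - c * (1 + θ - 1)) * Real.log X ^ A) ≤
      (C * (2 + R) ^ B * (1 / e) ^ A) * U ^ B * (X : ℝ) ^ (m - c * θ') := by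
    have h2 : (1 + (U + R)) ^ B ≤ (2 + R) ^ B * U ^ B := by
      rw [← mul_pow]
      apply pow_le_pow_left₀ (by positivity)
      nlinarith
    have h3 : Real.log X ^ A ≤ (1 / e) ^ A * (X : ℝ) ^ (c * (θ - θ')) := by
      have h4 : Real.log X ≤ (X : ℝ) ^ e / e := Real.log_le_rpow_div hX0.le he0
      calc Real.log X ^ A ≤ ((X : ℝ) ^ e / e) ^ A := pow_le_pow_left₀ hlog h4 A
        _ = (1 / e) ^ A * (X : ℝ) ^ (e * A) := by
            rw [Real.rpow_mul hX0.le, Real.rpow_natCast, ← mul_pow]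
            congr 1
            ring
        _ ≤ (1 / e) ^ A * (X : ℝ) ^ (c * (θ - θ')) := by
            apply mul_le_mul_of_nonneg_left _ (by positivity)
            apply Real.rpow_le_rpow_of_exponent_le hX1
            rw [he, div_mul_eq_mul_div, div_le_iff₀ (by positivity)]
            nlinarith
    have h5 : (X : ℝ) ^ ((m : ℝ) - c * θ') =
        (X : ℝ) ^ ((m : ℝ) - c * (1 + θ - 1)) * (X : ℝ) ^ (c * (θ - θ')) := by
      rw [← Real.rpow_add hX0]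
      congr 1
      ring
    rw [h5]
    calc C * (1 + (U + R)) ^ B * (X : ℝ) ^ ((m : ℝ) - c * (1 + θ - 1)) * Real.log X ^ A
        ≤ C * ((2 + R) ^ B * U ^ B) * (X : ℝ) ^ ((m : ℝ) - c * (1 + θ - 1)) *
          ((1 / e) ^ A * (X : ℝ) ^ (c * (θ - θ'))) := by gcongr
      _ = _ := by ring
  have h6 : (T.card : ℝ≥0∞) ≤ 2 ^ m * ENNReal.ofReal ((C * (2 + R) ^ B * (1 / e) ^ A) * U ^ B *
      (X : ℝ) ^ (m - c * θ')) := by
    calc (T.card : ℝ≥0∞) = ∑ d ∈ T, (1 : ℝ≥0∞) := by simp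
      _ ≤ ∑ d ∈ T, ∑ S ∈ Finset.univ.filter (fun S : Finset (Fin m) => S.Nonempty),
            zcount (F (sf (∏ i ∈ S, d i))) (1 + θ) (U + R) := by
          refine Finset.sum_le_sum fun d hd => ?_
          obtain ⟨S, hS, ρ, h7, h8, h9⟩ := hfar d hd
          exact (one_le_zcount (hF _ (Pool.Agent.Helper92.MQ.sf_squarefree _)) h7 h8 h9).trans
            (Finset.single_le_sum
            (f := fun S => zcount (F (sf (∏ i ∈ S, d i))) (1 + θ) (U + R))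
            (fun _ _ => zero_le) (Finset.mem_filter.2 ⟨Finset.mem_univ S, hS⟩))
      _ = ∑ S ∈ Finset.univ.filter (fun S : Finset (Fin m) => S.Nonempty),
            ∑ d ∈ T, zcount (F (sf (∏ i ∈ S, d i))) (1 + θ) (U + R) := Finset.sum_comm
      _ ≤ ∑ S ∈ Finset.univ.filter (fun S : Finset (Fin m) => S.Nonempty),
            ∑ d ∈ box (Fin m) X, zcount (F (sf (∏ i ∈ S, d i))) (1 + θ) (U + R) :=
          Finset.sum_le_sum fun S _ => Finset.sum_le_sum_of_subset hT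
      _ ≤ ∑ S ∈ Finset.univ.filter (fun S : Finset (Fin m) => S.Nonempty),
            ENNReal.ofReal ((C * (2 + R) ^ B * (1 / e) ^ A) * U ^ B * (X : ℝ) ^ (m - c * θ')) :=
          Finset.sum_le_sum fun S hS => (H X (1 + θ) (U + R) hX (by linarith) (by positivity) S
            (Finset.mem_filter.1 hS).2).trans (ENNReal.ofReal_le_ofReal h1)
      _ ≤ 2 ^ m * ENNReal.ofReal ((C * (2 + R) ^ B * (1 / e) ^ A) * U ^ B * (X : ℝ) ^ (m - c * θ')) := by
          rw [Finset.sum_const, nsmul_eq_mul]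
          refine mul_le_mul_left ?_ _
          have h3 := Finset.card_filter_le (Finset.univ : Finset (Finset (Fin m)))
            (fun S => S.Nonempty)
          rw [Finset.card_univ, Fintype.card_finset, Fintype.card_fin] at h3
          exact_mod_cast h3
  have h7 : (2 : ℝ≥0∞) ^ m = ENNReal.ofReal (2 ^ m) := by
    rw [ENNReal.ofReal_pow (by norm_num)]
    norm_num
  rw [h7, ← ENNReal.ofReal_mul (by positivity)] at h6
  have h8 : (T.card : ℝ≥0∞) = ENNReal.ofReal (T.card : ℝ) := by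
    rw [ENNReal.ofReal_natCast]
  rw [h8] at h6
  have h9 := (ENNReal.ofReal_le_ofReal_iff (by positivity)).1 h6
  linarith [h9]

/-- the tuples with small first entry -/
theorem count_small {k : ℕ} (X : ℕ) (hX : 1 ≤ X) (T : Finset (Fin (k + 1) → ℤ))
    (hT : T ⊆ box (Fin (k + 1)) X) (h : ∀ d ∈ T, ((|d 0| : ℤ) : ℝ) < (X : ℝ) ^ ((3 : ℝ) / 4)) :
    (T.card : ℝ) ≤ 3 ^ (k + 1) * (X : ℝ) ^ ((k + 1 : ℕ) - (1 : ℝ) / 4) := by
  classical
  have hX1 : (1 : ℝ) ≤ X := by exact_mod_cast hX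
  have hX0 : (0 : ℝ) < X := by linarith
  obtain ⟨Y, hY⟩ : ∃ Y : ℕ, Y = ⌊(X : ℝ) ^ ((3 : ℝ) / 4)⌋₊ := ⟨_, rfl⟩
  have hpos : (0 : ℝ) ≤ (X : ℝ) ^ ((3 : ℝ) / 4) := by positivity
  have hYle : (Y : ℝ) ≤ (X : ℝ) ^ ((3 : ℝ) / 4) := by rw [hY]; exact Nat.floor_le hpos
  have hone : (1 : ℝ) ≤ (X : ℝ) ^ ((3 : ℝ) / 4) := Real.one_le_rpow hX1 (by norm_num)
  have hinj : T.card ≤ ((Finset.Icc (-(Y : ℤ)) Y) ×ˢ box (Fin k) X).card := by
    refine Finset.card_le_card_of_injOn (fun d => (d 0, fun i : Fin k => d i.succ)) ?_ ?_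
    · intro d hd
      have hd' : d ∈ T := hd
      have h1 := mem_box.1 (hT hd')
      rw [Finset.coe_product]
      refine ⟨?_, ?_⟩
      · have h2 : (|d 0|).toNat ≤ Y := by
          rw [hY]
          apply Nat.le_floor
          have h3 : (((|d 0|).toNat : ℕ) : ℤ) = |d 0| := Int.toNat_of_nonneg (abs_nonneg _)
          have h4 : (((|d 0|).toNat : ℕ) : ℝ) = ((|d 0| : ℤ) : ℝ) := by exact_mod_cast h3
          rw [h4]
          exact (h d hd').le
        have h5 : |d 0| ≤ (Y : ℤ) := by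
          have := Int.self_le_toNat (|d 0|)
          omega
        exact Finset.mem_coe.2 (Finset.mem_Icc.2 (abs_le.1 h5))
      · exact Finset.mem_coe.2 (mem_box.2 fun i => h1 i.succ)
    · intro d _ d' _ hdd
      have h1 : d 0 = d' 0 := congrArg Prod.fst hdd
      have h2 : (fun i : Fin k => d i.succ) = fun i : Fin k => d' i.succ := congrArg Prod.snd hdd
      funext i
      refine Fin.cases h1 (fun j => congrFun h2 j) i
  rw [Finset.card_product, Int.card_Icc] at hinj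
  have hbox := box_card_le (ι := Fin k) hX
  rw [Fintype.card_fin] at hbox
  have h1 : ((Y : ℤ) + 1 - (-(Y : ℤ))).toNat = 2 * Y + 1 := by omega
  rw [h1] at hinj
  have h2 : (T.card : ℝ) ≤ (2 * Y + 1) * (3 * X) ^ k := by
    exact_mod_cast hinj.trans (Nat.mul_le_mul_left _ hbox)
  have h3 : (X : ℝ) ^ (((k + 1 : ℕ) : ℝ) - (1 : ℝ) / 4) = (X : ℝ) ^ ((3 : ℝ) / 4) * (X : ℝ) ^ k := by
    rw [← Real.rpow_natCast (X : ℝ) k, ← Real.rpow_add hX0]
    congr 1
    push_cast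
    ring
  rw [h3]
  calc (T.card : ℝ) ≤ (2 * Y + 1) * (3 * X) ^ k := h2
    _ ≤ (3 * (X : ℝ) ^ ((3 : ℝ) / 4)) * (3 * X) ^ k := by
        apply mul_le_mul_of_nonneg_right _ (by positivity)
        linarith
    _ = _ := by rw [mul_pow, pow_succ]; ring

end Pool.Agent.Helper92.AF
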