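import Pool.Agent.Helper92.HF.Fin

/-!
# Almost all twists over multiquadratic fields: the heat flow (helper92)
-/

set_option autoImplicit false

open NumberField IsDedekindDomain Complex Filter Topology

namespace Pool.Agent.Helper92.AF

open Pool.Agent.W169.HF (heat)
open Pool.Agent.Helper92.HF

lemma ev_large {P : ℝ → Prop} (h : ∀ᶠ x in atTop, P x) : ∃ X0 : ℝ, ∀ x, X0 ≤ x → P x := by
  rw [eventually_atTop] at h
  exact h

/-- the zeros of the heat flow at bounded heights -/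
theorem loc_flow {n : ℕ} (hn : 1 ≤ n) {ε β : ℝ} (hε : 0 < ε) (hε1 : ε ≤ 1 / 2) (hβ : 0 < β) :
    ∃ X0 : ℝ, ∀ (X A : ℝ) (Λ : ℂ → ℂ), X0 ≤ X → IsC n A Λ → X ≤ A →
      (∀ ρ : ℂ, Λ ρ = 0 → |ρ.im| ≤ 3 * X ^ β → ρ.re ≤ 1 + ε / 4) →
      ∀ t : ℝ, ε / Real.log A ≤ t → ∀ s : ℂ, |s.im| ≤ X ^ β → heat t Λ s = 0 → s.re = 1 := by
  obtain ⟨R, C0, t1, ht1, H⟩ := fwd_comp hn (ϑ := ε / 4) (g := ε / 2) (by positivity) (by linarith)
    (by positivity)
  obtain ⟨A0, hA0, H2⟩ := global_one hn (ε := 1) one_pos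
  obtain ⟨X1, hX1⟩ := ev_large (tendsto_atTop.1 (tendsto_rpow_atTop hβ) (|R|))
  refine ⟨max (max C0 A0) (max X1 (max (Real.exp (2 / t1)) 3)), ?_⟩
  intro X A Λ hX hc hXA hz t ht s hs h0
  have hXC : C0 ≤ X := ((le_max_left _ _).trans (le_max_left _ _)).trans hX
  have hXA0 : A0 ≤ X := ((le_max_right _ _).trans (le_max_left _ _)).trans hX
  have hXX1 : X1 ≤ X := ((le_max_left _ _).trans (le_max_right _ _)).trans hX
  have hXe : Real.exp (2 / t1) ≤ X :=
    (((le_max_left _ _).trans (le_max_right _ _)).trans (le_max_right _ _)).trans hX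
  have hX3 : 3 ≤ X := (((le_max_right _ _).trans (le_max_right _ _)).trans (le_max_right _ _)).trans hX
  have hlogA : 0 < Real.log A := Real.log_pos (by linarith)
  rcases le_or_gt ((1 + 1) / Real.log A) t with h2 | h2
  · exact H2 A Λ hc (hXA0.trans hXA) t h2 s h0
  have ht0 : 0 < t := lt_of_lt_of_le (by positivity) ht
  have hlog2 : 2 / t1 ≤ Real.log A := by
    have := Real.log_le_log (Real.exp_pos _) (hXe.trans hXA)
    rwa [Real.log_exp] at this
  have htt : t ≤ t1 := by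
    refine h2.le.trans ?_
    rw [div_le_iff₀ hlogA]
    rw [div_le_iff₀ ht1] at hlog2
    linarith
  have hcond : A ≤ HF.cond n A s.im := le_cond hc.one_le _
  have hlc : Real.log A ≤ Real.log (HF.cond n A s.im) := Real.log_le_log (by linarith) hcond
  refine H A Λ hc s.im t ((hXC.trans hXA).trans hcond) ht0 htt ?_ (fun ρ hρ hρy => ?_) s rfl h0
  · rw [div_le_iff₀ hlogA] at ht
    have := mul_le_mul_of_nonneg_left hlc ht0.le
    linarith
  · refine hz ρ hρ ?_
    have h3 : |R| ≤ X ^ β := hX1 X hXX1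
    have h4 : |ρ.im| ≤ |s.im| + |ρ.im - s.im| := by
      have := abs_sub_abs_le_abs_sub ρ.im s.im
      linarith
    have h5 := le_abs_self R
    have h6 : 0 ≤ X ^ β := (abs_nonneg R).trans h3
    linarith

/-- the zeros of the heat flow at heights up to `U` -/
theorem loc_flowU {n : ℕ} (hn : 1 ≤ n) {ϑ g : ℝ} (hϑ : 0 ≤ ϑ) (hϑ1 : ϑ ≤ 3 / 2) (hg : 0 < g) :
    ∃ X0 R : ℝ, 0 ≤ R ∧ ∀ (A : ℝ) (Λ : ℂ → ℂ), X0 ≤ A → IsC n A Λ → ∀ U : ℝ,
      (∀ ρ : ℂ, Λ ρ = 0 → |ρ.im| ≤ U + R → ρ.re ≤ 1 + ϑ) →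
      ∀ t : ℝ, (2 * ϑ + g) / Real.log A ≤ t → ∀ s : ℂ, |s.im| ≤ U → heat t Λ s = 0 → s.re = 1 := by
  obtain ⟨R, C0, t1, ht1, H⟩ := fwd_comp hn (ϑ := ϑ) (g := g) hϑ hϑ1 hg
  obtain ⟨A0, hA0, H2⟩ := global_one hn (ε := 1) one_pos
  refine ⟨max (max C0 A0) (max (Real.exp (2 / t1)) 3), |R|, abs_nonneg R, ?_⟩
  intro A Λ hX hc U hz t ht s hs h0
  have hXC : C0 ≤ A := ((le_max_left _ _).trans (le_max_left _ _)).trans hX
  have hXA0 : A0 ≤ A := ((le_max_right _ _).trans (le_max_left _ _)).trans hX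
  have hXe : Real.exp (2 / t1) ≤ A := ((le_max_left _ _).trans (le_max_right _ _)).trans hX
  have hX3 : 3 ≤ A := ((le_max_right _ _).trans (le_max_right _ _)).trans hX
  have hlogA : 0 < Real.log A := Real.log_pos (by linarith)
  rcases le_or_gt ((1 + 1) / Real.log A) t with h2 | h2
  · exact H2 A Λ hc hXA0 t h2 s h0
  have ht0 : 0 < t := lt_of_lt_of_le (by positivity) ht
  have hlog2 : 2 / t1 ≤ Real.log A := by
    have := Real.log_le_log (Real.exp_pos _) hXe
    rwa [Real.log_exp] at this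
  have htt : t ≤ t1 := by
    refine h2.le.trans ?_
    rw [div_le_iff₀ hlogA]
    rw [div_le_iff₀ ht1] at hlog2
    linarith
  have hcond : A ≤ HF.cond n A s.im := le_cond hc.one_le _
  have hlc : Real.log A ≤ Real.log (HF.cond n A s.im) := Real.log_le_log (by linarith) hcond
  refine H A Λ hc s.im t (hXC.trans hcond) ht0 htt ?_ (fun ρ hρ hρy => ?_) s rfl h0
  · rw [div_le_iff₀ hlogA] at ht
    have := mul_le_mul_of_nonneg_left hlc ht0.le
    linarith
  · refine hz ρ hρ ?_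
    have h4 : |ρ.im| ≤ |s.im| + |ρ.im - s.im| := by
      have := abs_sub_abs_le_abs_sub ρ.im s.im
      linarith
    have h5 := le_abs_self R
    linarith

/-- the zeros of the heat flow at all heights -/
theorem glob_flow {n : ℕ} (hn : 1 ≤ n) {β M : ℝ} (hβ : 0 < β) (hM : 0 < M) :
    ∃ κ X0 : ℝ, 0 < κ ∧ κ < 1 ∧ ∀ (X A : ℝ) (Λ : ℂ → ℂ), X0 ≤ X → IsC n A Λ → X ≤ A → A ≤ X ^ M →
      (∀ ρ : ℂ, Λ ρ = 0 → |ρ.im| ≤ 3 * X ^ β → ρ.re ≤ 1 + 1 / 8) →
      ∀ t : ℝ, (1 - κ) / Real.log A ≤ t → ∀ s : ℂ, heat t Λ s = 0 → s.re = 1 := by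
  obtain ⟨δ, hδ⟩ : ∃ δ : ℝ, δ = min (2 * β / M) 1 := ⟨_, rfl⟩
  have hδ0 : 0 < δ := by rw [hδ]; exact lt_min (by positivity) one_pos
  have hδ1 : δ ≤ 1 := by rw [hδ]; exact min_le_right _ _
  have hδ2 : δ ≤ 2 * β / M := by rw [hδ]; exact min_le_left _ _
  obtain ⟨R, C0, t1, ht1, H⟩ := fwd_comp hn (ϑ := 1 / 2) (g := δ / 2) (by norm_num) (by norm_num)
    (by positivity)
  obtain ⟨X1, H1⟩ := loc_flow hn (ε := 1 / 2) (β := β) (by norm_num) le_rfl hβ
  refine ⟨δ / 4, max (max C0 X1) (max (Real.exp (1 / t1)) 3), by positivity, by linarith, ?_⟩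
  intro X A Λ hX hc hXA hAM hz t ht s h0
  have hXC : C0 ≤ X := ((le_max_left _ _).trans (le_max_left _ _)).trans hX
  have hXX1 : X1 ≤ X := ((le_max_right _ _).trans (le_max_left _ _)).trans hX
  have hXe : Real.exp (1 / t1) ≤ X := ((le_max_left _ _).trans (le_max_right _ _)).trans hX
  have hX3 : 3 ≤ X := ((le_max_right _ _).trans (le_max_right _ _)).trans hX
  have hlogA : 0 < Real.log A := Real.log_pos (by linarith)
  have hlogX : 0 < Real.log X := Real.log_pos (by linarith)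
  obtain ⟨t0, ht0⟩ : ∃ t0 : ℝ, t0 = (1 - δ / 4) / Real.log A := ⟨_, rfl⟩
  have ht0L : t0 * Real.log A = 1 - δ / 4 := by rw [ht0]; field_simp
  have ht0p : 0 < t0 := by
    rw [ht0]
    apply div_pos _ hlogA
    linarith
  have hlog1 : 1 / t1 ≤ Real.log A := by
    have := Real.log_le_log (Real.exp_pos _) (hXe.trans hXA)
    rwa [Real.log_exp] at this
  have ht01 : t0 ≤ t1 := by
    rw [ht0, div_le_iff₀ hlogA]
    rw [div_le_iff₀ ht1] at hlog1
    linarith
  rw [← ht0] at ht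
  refine hc.mono ht0p.le ht (fun w hw => ?_) s h0
  rcases le_or_gt (|w.im|) (X ^ β) with hw1 | hw1
  · refine H1 X A Λ hXX1 hc hXA (fun ρ h1 h2 => ?_) t0 ?_ w hw1 hw
    · have := hz ρ h1 h2
      linarith
    · rw [div_le_iff₀ hlogA, ht0L]
      linarith
  · have hcond : A ≤ HF.cond n A w.im := le_cond hc.one_le _
    have h3 : β * Real.log X ≤ Real.log (1 + |w.im|) := by
      rw [← Real.log_rpow (by linarith)]
      apply Real.log_le_log (Real.rpow_pos_of_pos (by linarith) _)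
      linarith
    have h4 : Real.log A ≤ M * Real.log X := by
      rw [← Real.log_rpow (by linarith)]
      exact Real.log_le_log (by linarith) hAM
    have h5 : Real.log (HF.cond n A w.im) = Real.log A + 2 * n * Real.log (1 + |w.im|) := by
      unfold HF.cond
      have h6 : (1 + |w.im|) ≠ 0 := by positivity
      rw [Real.log_mul (by linarith) (pow_ne_zero _ h6), Real.log_pow]
      push_cast
      ring
    have hn1 : (1 : ℝ) ≤ n := by exact_mod_cast hn
    have h6 : δ * Real.log A ≤ 2 * n * Real.log (1 + |w.im|) := by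
      have h7 : δ * M ≤ 2 * β := by
        rw [le_div_iff₀ hM] at hδ2
        exact hδ2
      calc δ * Real.log A ≤ δ * (M * Real.log X) := mul_le_mul_of_nonneg_left h4 hδ0.le
        _ = (δ * M) * Real.log X := by ring
        _ ≤ (2 * β) * Real.log X := mul_le_mul_of_nonneg_right h7 hlogX.le
        _ = 2 * 1 * (β * Real.log X) := by ring
        _ ≤ 2 * n * Real.log (1 + |w.im|) := by
            apply mul_le_mul (by linarith) h3 (by positivity) (by positivity)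
    refine H A Λ hc w.im t0 ((hXC.trans hXA).trans hcond) ht0p ht01 ?_ (fun ρ hρ _ => ?_) w rfl hw
    · rw [h5, mul_add, ht0L]
      have h7 : t0 * (δ * Real.log A) ≤ t0 * (2 * n * Real.log (1 + |w.im|)) :=
        mul_le_mul_of_nonneg_left h6 ht0p.le
      have h8 : t0 * (δ * Real.log A) = δ * (1 - δ / 4) := by
        rw [← ht0L]; ring
      rw [h8] at h7
      nlinarith
    · have := hc.strip hρ
      linarith [(abs_le.1 this).2]

end Pool.Agent.Helper92.AF
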