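import Pool.Agent.Helper92.AF.Tw4
import Pool.Agent.Helper92.AF.Cnt
import Pool.Agent.Helper92.AF.Det

/-!
# Almost all twists over multiquadratic fields: assembly (helper92)
-/

set_option autoImplicit false

open NumberField IsDedekindDomain Complex Filter Topology

namespace Pool.Agent.Helper92.AF

open Pool.Agent.W169.HF (heat)
open Pool.Agent.Helper92.HF
open Pool.Agent.Y19.QT (IsLFun HasTwists zcount)
open Pool.Agent.Helper92.MQ (IsMQ sf box mem_box box_card_le density_mq)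

/-- the completed L-function of the twist by `d 0` over the field generated by the square roots of the
other `d i` exists, its conductor is between two powers of `X`, and it has the property `Pr` -/
def OnT (a b : ℤ) {k : ℕ} (X : ℕ) (d : Fin (k + 1) → ℤ) (Pr : ℝ → (ℂ → ℂ) → Prop) : Prop :=
  ∀ (K : Type) [Field K] [NumberField K] (x : Fin k → K), IsMQ (fun i : Fin k => d i.succ) K x →
    ∃ (P : ℕ → Polynomial ℝ) (A : ℝ) (Λ : ℂ → ℂ),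
      Comp K (a * d 0 ^ 2) (b * d 0 ^ 3)
        (2 * (4 * (a * d 0 ^ 2) ^ 3 + 27 * (b * d 0 ^ 3) ^ 2) * ∏ i : Fin k, d i.succ) P A Λ ∧
      (X : ℝ) ≤ A ∧ A ≤ (X : ℝ) ^ ((2 * k + 3) * 2 ^ k) ∧ Pr A Λ

/-- the zeros are zeros of the L-functions of twists -/
def ZerosOf (F : ℤ → ℂ → ℂ) {k : ℕ} (d : Fin (k + 1) → ℤ) (Λ : ℂ → ℂ) : Prop :=
  ∀ ρ : ℂ, 1 / 2 < ρ.re → Λ ρ = 0 → ∃ S : Finset (Fin k), F (sf (∏ i ∈ ins S, d i)) ρ = 0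

lemma not_far {F : ℤ → ℂ → ℂ} {k : ℕ} {d : Fin (k + 1) → ℤ} {Λ : ℂ → ℂ} (hz : ZerosOf F d Λ) {θ U : ℝ}
    (hθ : 0 ≤ θ) (h : ¬ FarT F d θ U) {ρ : ℂ} (h0 : Λ ρ = 0) (h1 : |ρ.im| ≤ U) : ρ.re ≤ 1 + θ := by
  by_contra hcon
  push Not at hcon
  obtain ⟨S, hS⟩ := hz ρ (by linarith) h0
  exact h ⟨ins S, ins_nonempty S, ρ, hS, hcon.le, h1⟩

theorem onT_of {a b : ℤ} (hab : 4 * a ^ 3 + 27 * b ^ 2 ≠ 0) (hT : AllTw a b)
    (F : ℤ → ℂ → ℂ) (hF : ∀ D : ℤ, Squarefree D → IsLFun (a * D ^ 2) (b * D ^ 3) (F D)) (k : ℕ) :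
    ∃ X0 : ℕ, ∀ (X : ℕ) (d : Fin (k + 1) → ℤ), X0 ≤ X → d ∈ box (Fin (k + 1)) X →
      (X : ℝ) ^ ((3 : ℝ) / 4) ≤ ((|d 0| : ℤ) : ℝ) → ∀ Pr : ℝ → (ℂ → ℂ) → Prop,
      (∀ (A : ℝ) (Λ : ℂ → ℂ), IsC (2 ^ k) A Λ → (X : ℝ) ≤ A → A ≤ (X : ℝ) ^ ((2 * k + 3) * 2 ^ k) →
        ZerosOf F d Λ → Pr A Λ) → OnT a b X d Pr := by
  obtain ⟨CN, H⟩ := comp_tw hab hT F hF
  obtain ⟨Q, hQ⟩ : ∃ Q : ℝ, Q = ((2 * (4 * a ^ 3 + 27 * b ^ 2) : ℤ) : ℝ) ^ 2 := ⟨_, rfl⟩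
  have hQ0 : 0 ≤ Q := by rw [hQ]; positivity
  refine ⟨max CN (max (⌈Q ^ 2⌉₊) 1), fun X d hX hd hbig Pr hPr K _ _ x hK => ?_⟩
  have hXC : CN ≤ X := (le_max_left _ _).trans hX
  have hXQ : ⌈Q ^ 2⌉₊ ≤ X := ((le_max_left _ _).trans (le_max_right _ _)).trans hX
  have hX1 : 1 ≤ X := ((le_max_right _ _).trans (le_max_right _ _)).trans hX
  have hX1' : (1 : ℝ) ≤ X := by exact_mod_cast hX1
  have hX0' : (0 : ℝ) < X := by linarith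
  have hbox := mem_box.1 hd
  obtain ⟨P, A, Λ, h1, h2, h3, h4⟩ := H k d K x hK (fun i => (hbox i).2.ne_zero) (hbox 0).2
  have h5 := h3 X (fun i => (hbox i).1)
  have hA : (X : ℝ) ≤ A := by
    have h6 : (X : ℝ) ^ ((3 : ℝ) / 2) ≤ Q * A := by
      have h7 : ((X : ℝ) ^ ((3 : ℝ) / 4)) ^ 2 ≤ (((|d 0| : ℤ) : ℝ)) ^ 2 :=
        pow_le_pow_left₀ (by positivity) hbig 2
      have h8 : ((X : ℝ) ^ ((3 : ℝ) / 4)) ^ 2 = (X : ℝ) ^ ((3 : ℝ) / 2) := by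
        rw [← Real.rpow_natCast, ← Real.rpow_mul hX0'.le]
        norm_num
      have h9 : (((|d 0| : ℤ) : ℝ)) ^ 2 = ((d 0 : ℤ) : ℝ) ^ 2 := by
        push_cast
        rw [sq_abs]
      rw [h8, h9] at h7
      rw [hQ]
      exact h7.trans h2
    have h7 : Q ≤ (X : ℝ) ^ ((1 : ℝ) / 2) := by
      have h8 : Q ^ 2 ≤ X := (Nat.le_ceil _).trans (by exact_mod_cast hXQ)
      calc Q = (Q ^ 2) ^ ((1 : ℝ) / 2) := by
            rw [← Real.rpow_natCast, ← Real.rpow_mul hQ0]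
            norm_num
        _ ≤ (X : ℝ) ^ ((1 : ℝ) / 2) := Real.rpow_le_rpow (by positivity) h8 (by norm_num)
    have h8 : (X : ℝ) ^ ((3 : ℝ) / 2) = (X : ℝ) ^ ((1 : ℝ) / 2) * X := by
      rw [← Real.rpow_add_one hX0'.ne']
      norm_num
    have h9 : (X : ℝ) ^ ((1 : ℝ) / 2) * X ≤ (X : ℝ) ^ ((1 : ℝ) / 2) * A := by
      rw [← h8]
      exact h6.trans (mul_le_mul_of_nonneg_right h7 (by linarith [h1.one_le]))
    exact le_of_mul_le_mul_left h9 (by positivity)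
  have hA2 : A ≤ (X : ℝ) ^ ((2 * k + 3) * 2 ^ k) := by
    refine h5.trans ?_
    rw [pow_mul (X : ℝ) (2 * k + 3) (2 ^ k)]
    apply pow_le_pow_left₀ (by positivity)
    have h6 : (CN : ℝ) ≤ X := by exact_mod_cast hXC
    calc (CN : ℝ) * (X : ℝ) ^ (2 * (k + 1)) ≤ X * (X : ℝ) ^ (2 * (k + 1)) :=
          mul_le_mul_of_nonneg_right h6 (by positivity)
      _ = (X : ℝ) ^ (2 * k + 3) := by ring
  exact ⟨P, A, Λ, h1, hA, hA2, hPr A Λ ⟨K, inferInstance, inferInstance, _, _, _, P, hK.deg, h1⟩ hA hA2 h4⟩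

lemma split {ι : Type} {T : Finset ι} {P1 P2 : ι → Prop} (h : ∀ d ∈ T, P1 d ∨ P2 d) {c1 c2 : ℝ}
    (h1 : ∀ T' ⊆ T, (∀ d ∈ T', P1 d) → (T'.card : ℝ) ≤ c1)
    (h2 : ∀ T' ⊆ T, (∀ d ∈ T', P2 d) → (T'.card : ℝ) ≤ c2) : (T.card : ℝ) ≤ c1 + c2 := by
  classical
  have h3 : T ⊆ T.filter P1 ∪ T.filter P2 := by
    intro d hd
    rw [Finset.mem_union, Finset.mem_filter, Finset.mem_filter]
    rcases h d hd with h | h
    · exact Or.inl ⟨hd, h⟩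
    · exact Or.inr ⟨hd, h⟩
  have h4 := (Finset.card_le_card h3).trans (Finset.card_union_le _ _)
  have h5 := h1 _ (Finset.filter_subset P1 T) fun d hd => (Finset.mem_filter.1 hd).2
  have h6 := h2 _ (Finset.filter_subset P2 T) fun d hd => (Finset.mem_filter.1 hd).2
  have h7 : (T.card : ℝ) ≤ (T.filter P1).card + (T.filter P2).card := by exact_mod_cast h4
  linarith

/-- the density theorem for the heat flow -/
def HeatDensity (a b : ℤ) : Prop :=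
  ∀ k : ℕ, ∃ (c : ℝ) (B : ℕ), 0 < c ∧ ∀ x ε : ℝ, 0 ≤ x → x ≤ 1 → 0 < ε → ∃ C : ℝ,
    ∀ (X : ℕ) (U : ℝ) (T : Finset (Fin (k + 1) → ℤ)), 1 ≤ X → 1 ≤ U → T ⊆ box (Fin (k + 1)) X →
      (∀ d ∈ T, ¬ OnT a b X d fun A Λ => ∀ t : ℝ, (x + ε) / Real.log A ≤ t →
        ∀ s : ℂ, |s.im| ≤ U → heat t Λ s = 0 → s.re = 1) →
      (T.card : ℝ) ≤ C * U ^ B * (X : ℝ) ^ (k + 1 - c * x)

/-- the zeros at all heights -/
def HeatAll (a b : ℤ) : Prop :=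
  ∀ k : ℕ, ∃ C κ δ : ℝ, 0 < κ ∧ κ < 1 ∧ 0 < δ ∧
    ∀ (X : ℕ) (T : Finset (Fin (k + 1) → ℤ)), 1 ≤ X → T ⊆ box (Fin (k + 1)) X →
      (∀ d ∈ T, ¬ OnT a b X d fun A Λ => ∀ t : ℝ, (1 - κ) / Real.log A ≤ t →
        ∀ s : ℂ, heat t Λ s = 0 → s.re = 1) →
      (T.card : ℝ) ≤ C * (X : ℝ) ^ (k + 1 - δ)

lemma small_X {k X0 X : ℕ} {T : Finset (Fin (k + 1) → ℤ)} (hX : 1 ≤ X) (hX0 : X < X0)
    (hT : T ⊆ box (Fin (k + 1)) X) : (T.card : ℝ) ≤ (3 * X0) ^ (k + 1) := by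
  have h1 := (Finset.card_le_card hT).trans (box_card_le (ι := Fin (k + 1)) hX)
  rw [Fintype.card_fin] at h1
  have h2 : T.card ≤ (3 * X0) ^ (k + 1) := h1.trans (Nat.pow_le_pow_left (by omega) _)
  exact_mod_cast h2

theorem heatDensity {a b : ℤ} (hab : 4 * a ^ 3 + 27 * b ^ 2 ≠ 0) (hT : AllTw a b)
    (F : ℤ → ℂ → ℂ) (hF : ∀ D : ℤ, Squarefree D → IsLFun (a * D ^ 2) (b * D ^ 3) (F D))
    (hden : ∀ m : ℕ, ∃ (C c : ℝ) (A B : ℕ), 0 < C ∧ 0 < c ∧ ∀ (X : ℕ) (σ U : ℝ), 3 ≤ X → 1 ≤ σ → 0 ≤ U →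
      ∀ S : Finset (Fin m), S.Nonempty →
      ∑ d ∈ box (Fin m) X, zcount (F (sf (∏ i ∈ S, d i))) σ U ≤
        ENNReal.ofReal (C * (1 + U) ^ B * (X : ℝ) ^ (m - c * (σ - 1)) * Real.log X ^ A)) :
    HeatDensity a b := by
  intro k
  obtain ⟨C, c, A, B, hC, hc, H⟩ := hden (k + 1)
  obtain ⟨X1, hX1⟩ := onT_of hab hT F hF k
  refine ⟨min (c / 2) (1 / 4), B, lt_min (by positivity) (by norm_num), ?_⟩
  intro x ε hx0 hx1 hε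
  obtain ⟨η, hη⟩ : ∃ η : ℝ, η = min ε 1 := ⟨_, rfl⟩
  have hη0 : 0 < η := by rw [hη]; exact lt_min hε one_pos
  have hη1 : η ≤ 1 := by rw [hη]; exact min_le_right _ _
  have hηε : η ≤ ε := by rw [hη]; exact min_le_left _ _
  obtain ⟨X2, R, hR, H2⟩ := loc_flowU (n := 2 ^ k) Nat.one_le_two_pow (ϑ := x / 2 + η / 4) (g := η / 2)
    (by positivity) (by linarith) (by positivity)
  obtain ⟨C1, hC1, H1⟩ := count_U (fun D hD => (hF D hD).1) hC hc H (θ := x / 2 + η / 4) (θ' := x / 2)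
    (by positivity) (by linarith) hR
  obtain ⟨X0, hX0⟩ : ∃ X0 : ℕ, X0 = max X1 (max ⌈X2⌉₊ 3) := ⟨_, rfl⟩
  refine ⟨max ((3 * X0) ^ (k + 1)) (3 ^ (k + 1) + C1), ?_⟩
  intro X U T hX hU hTb hbad
  have hXr : (1 : ℝ) ≤ X := by exact_mod_cast hX
  have hUB : (1 : ℝ) ≤ U ^ B := one_le_pow₀ hU
  obtain ⟨c', hc'⟩ : ∃ c' : ℝ, c' = min (c / 2) (1 / 4) := ⟨_, rfl⟩
  rw [← hc']
  have hc'0 : 0 < c' := by rw [hc']; exact lt_min (by positivity) (by norm_num)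
  have hc'1 : c' ≤ c / 2 := by rw [hc']; exact min_le_left _ _
  have hc'2 : c' ≤ 1 / 4 := by rw [hc']; exact min_le_right _ _
  have hcx : c' * x ≤ 1 / 4 := by nlinarith
  have hpow : (1 : ℝ) ≤ (X : ℝ) ^ ((k : ℝ) + 1 - c' * x) := by
    apply Real.one_le_rpow hXr
    have : (0 : ℝ) ≤ k := Nat.cast_nonneg k
    linarith
  have hmax : (0 : ℝ) ≤ max ((3 * X0 : ℝ) ^ (k + 1)) (3 ^ (k + 1) + C1) :=
    le_trans (by positivity) (le_max_left _ _)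
  rcases lt_or_ge X X0 with hlt | hge
  · calc (T.card : ℝ) ≤ (3 * X0) ^ (k + 1) := small_X hX hlt hTb
      _ ≤ max ((3 * X0 : ℝ) ^ (k + 1)) (3 ^ (k + 1) + C1) := le_max_left _ _
      _ = max ((3 * X0 : ℝ) ^ (k + 1)) (3 ^ (k + 1) + C1) * 1 * 1 := by ring
      _ ≤ max ((3 * X0 : ℝ) ^ (k + 1)) (3 ^ (k + 1) + C1) * U ^ B * (X : ℝ) ^ ((k : ℝ) + 1 - c' * x) := by
          gcongr
  have hXX1 : X1 ≤ X := by omega
  have hXX2 : X2 ≤ X := by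
    have h1 : ⌈X2⌉₊ ≤ X := by omega
    exact (Nat.le_ceil _).trans (by exact_mod_cast h1)
  have hX3 : 3 ≤ X := by omega
  have hkey : (T.card : ℝ) ≤ 3 ^ (k + 1) * (X : ℝ) ^ ((k + 1 : ℕ) - (1 : ℝ) / 4) +
      C1 * U ^ B * (X : ℝ) ^ (((k + 1 : ℕ) : ℝ) - c * (x / 2)) := by
    refine split (P1 := fun d => ((|d 0| : ℤ) : ℝ) < (X : ℝ) ^ ((3 : ℝ) / 4))
      (P2 := fun d => FarT F d (x / 2 + η / 4) (U + R)) (fun d hd => ?_) (fun T' hT' h' => ?_)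
      (fun T' hT' h' => ?_)
    · by_contra hcon
      push Not at hcon
      obtain ⟨h1, h2⟩ := hcon
      refine hbad d hd (hX1 X d hXX1 (hTb hd) h1 _ fun A Λ h3 h4 h5 h6 t ht s hs h0 => ?_)
      have hlogA : 0 < Real.log A := Real.log_pos (by
        have : (3 : ℝ) ≤ X := by exact_mod_cast hX3
        linarith)
      refine H2 A Λ (hXX2.trans h4) h3 U (fun ρ hρ hρU => not_far h6 (by positivity) h2 hρ hρU) t
        (le_trans ?_ ht) s hs h0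
      apply div_le_div_of_nonneg_right _ hlogA.le
      linarith
    · exact count_small X hX T' (hT'.trans hTb) h'
    · exact H1 X T' U hX3 hU (hT'.trans hTb) h'
  have e1 : (X : ℝ) ^ ((k + 1 : ℕ) - (1 : ℝ) / 4) ≤ U ^ B * (X : ℝ) ^ ((k : ℝ) + 1 - c' * x) := by
    calc (X : ℝ) ^ ((k + 1 : ℕ) - (1 : ℝ) / 4) ≤ (X : ℝ) ^ ((k : ℝ) + 1 - c' * x) := by
          apply Real.rpow_le_rpow_of_exponent_le hXr
          push_cast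
          linarith
      _ = 1 * (X : ℝ) ^ ((k : ℝ) + 1 - c' * x) := (one_mul _).symm
      _ ≤ U ^ B * (X : ℝ) ^ ((k : ℝ) + 1 - c' * x) := mul_le_mul_of_nonneg_right hUB (by positivity)
  have e2 : (X : ℝ) ^ (((k + 1 : ℕ) : ℝ) - c * (x / 2)) ≤ (X : ℝ) ^ ((k : ℝ) + 1 - c' * x) := by
    apply Real.rpow_le_rpow_of_exponent_le hXr
    push_cast
    nlinarith
  calc (T.card : ℝ) ≤ 3 ^ (k + 1) * (X : ℝ) ^ ((k + 1 : ℕ) - (1 : ℝ) / 4) +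
      C1 * U ^ B * (X : ℝ) ^ (((k + 1 : ℕ) : ℝ) - c * (x / 2)) := hkey
    _ ≤ 3 ^ (k + 1) * (U ^ B * (X : ℝ) ^ ((k : ℝ) + 1 - c' * x)) +
      C1 * U ^ B * (X : ℝ) ^ ((k : ℝ) + 1 - c' * x) := by gcongr
    _ = (3 ^ (k + 1) + C1) * U ^ B * (X : ℝ) ^ ((k : ℝ) + 1 - c' * x) := by ring
    _ ≤ max ((3 * X0 : ℝ) ^ (k + 1)) (3 ^ (k + 1) + C1) * U ^ B * (X : ℝ) ^ ((k : ℝ) + 1 - c' * x) := by
        gcongr
        exact le_max_right _ _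

theorem heatAll {a b : ℤ} (hab : 4 * a ^ 3 + 27 * b ^ 2 ≠ 0) (hT : AllTw a b)
    (F : ℤ → ℂ → ℂ) (hF : ∀ D : ℤ, Squarefree D → IsLFun (a * D ^ 2) (b * D ^ 3) (F D))
    (hden : ∀ m : ℕ, ∃ (C c : ℝ) (A B : ℕ), 0 < C ∧ 0 < c ∧ ∀ (X : ℕ) (σ U : ℝ), 3 ≤ X → 1 ≤ σ → 0 ≤ U →
      ∀ S : Finset (Fin m), S.Nonempty →
      ∑ d ∈ box (Fin m) X, zcount (F (sf (∏ i ∈ S, d i))) σ U ≤
        ENNReal.ofReal (C * (1 + U) ^ B * (X : ℝ) ^ (m - c * (σ - 1)) * Real.log X ^ A)) :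
    HeatAll a b := by
  intro k
  obtain ⟨C1, β, δ1, hC1, hβ, hδ1, H1⟩ := count_far (fun D hD => (hF D hD).1) (hden (k + 1))
    (θ := 1 / 8) (by norm_num)
  obtain ⟨X1, hX1⟩ := onT_of hab hT F hF k
  obtain ⟨M, hM⟩ : ∃ M : ℝ, M = (((2 * k + 3) * 2 ^ k : ℕ) : ℝ) := ⟨_, rfl⟩
  have hM0 : 0 < M := by rw [hM]; positivity
  obtain ⟨κ, X2, hκ, hκ1, H2⟩ := glob_flow (n := 2 ^ k) Nat.one_le_two_pow hβ hM0
  obtain ⟨δ, hδ⟩ : ∃ δ : ℝ, δ = min δ1 (1 / 4) := ⟨_, rfl⟩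
  have hδ0 : 0 < δ := by rw [hδ]; exact lt_min hδ1 (by norm_num)
  have hδa : δ ≤ δ1 := by rw [hδ]; exact min_le_left _ _
  have hδb : δ ≤ 1 / 4 := by rw [hδ]; exact min_le_right _ _
  obtain ⟨X0, hX0⟩ : ∃ X0 : ℕ, X0 = max X1 (max ⌈X2⌉₊ 3) := ⟨_, rfl⟩
  refine ⟨max ((3 * X0) ^ (k + 1)) (3 ^ (k + 1) + C1), κ, δ, hκ, hκ1, hδ0, ?_⟩
  intro X T hX hTb hbad
  have hXr : (1 : ℝ) ≤ X := by exact_mod_cast hX
  have hpow : (1 : ℝ) ≤ (X : ℝ) ^ ((k : ℝ) + 1 - δ) := by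
    apply Real.one_le_rpow hXr
    have : (0 : ℝ) ≤ k := Nat.cast_nonneg k
    linarith
  have hmax : (0 : ℝ) ≤ max ((3 * X0 : ℝ) ^ (k + 1)) (3 ^ (k + 1) + C1) :=
    le_trans (by positivity) (le_max_left _ _)
  rcases lt_or_ge X X0 with hlt | hge
  · calc (T.card : ℝ) ≤ (3 * X0) ^ (k + 1) := small_X hX hlt hTb
      _ ≤ max ((3 * X0 : ℝ) ^ (k + 1)) (3 ^ (k + 1) + C1) := le_max_left _ _
      _ = max ((3 * X0 : ℝ) ^ (k + 1)) (3 ^ (k + 1) + C1) * 1 := by ring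
      _ ≤ max ((3 * X0 : ℝ) ^ (k + 1)) (3 ^ (k + 1) + C1) * (X : ℝ) ^ ((k : ℝ) + 1 - δ) := by
          gcongr
  have hXX1 : X1 ≤ X := by omega
  have hXX2 : X2 ≤ X := by
    have h1 : ⌈X2⌉₊ ≤ X := by omega
    exact (Nat.le_ceil _).trans (by exact_mod_cast h1)
  have hX3 : 3 ≤ X := by omega
  have hkey : (T.card : ℝ) ≤ 3 ^ (k + 1) * (X : ℝ) ^ ((k + 1 : ℕ) - (1 : ℝ) / 4) +
      C1 * (X : ℝ) ^ (((k + 1 : ℕ) : ℝ) - δ1) := by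
    refine split (P1 := fun d => ((|d 0| : ℤ) : ℝ) < (X : ℝ) ^ ((3 : ℝ) / 4))
      (P2 := fun d => FarT F d (1 / 8) (3 * (X : ℝ) ^ β)) (fun d hd => ?_) (fun T' hT' h' => ?_)
      (fun T' hT' h' => ?_)
    · by_contra hcon
      push Not at hcon
      obtain ⟨h1, h2⟩ := hcon
      refine hbad d hd (hX1 X d hXX1 (hTb hd) h1 _ fun A Λ h3 h4 h5 h6 t ht s h0 => ?_)
      refine H2 X A Λ hXX2 h3 h4 (h5.trans (le_of_eq ?_))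
        (fun ρ hρ hρU => not_far h6 (by norm_num) h2 hρ hρU) t ht s h0
      rw [hM, Real.rpow_natCast]
    · exact count_small X hX T' (hT'.trans hTb) h'
    · exact H1 X T' hX3 (hT'.trans hTb) h'
  have e1 : (X : ℝ) ^ ((k + 1 : ℕ) - (1 : ℝ) / 4) ≤ (X : ℝ) ^ ((k : ℝ) + 1 - δ) := by
    apply Real.rpow_le_rpow_of_exponent_le hXr
    push_cast
    linarith
  have e2 : (X : ℝ) ^ (((k + 1 : ℕ) : ℝ) - δ1) ≤ (X : ℝ) ^ ((k : ℝ) + 1 - δ) := by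
    apply Real.rpow_le_rpow_of_exponent_le hXr
    push_cast
    linarith
  calc (T.card : ℝ) ≤ 3 ^ (k + 1) * (X : ℝ) ^ ((k + 1 : ℕ) - (1 : ℝ) / 4) +
      C1 * (X : ℝ) ^ (((k + 1 : ℕ) : ℝ) - δ1) := hkey
    _ ≤ 3 ^ (k + 1) * (X : ℝ) ^ ((k : ℝ) + 1 - δ) + C1 * (X : ℝ) ^ ((k : ℝ) + 1 - δ) := by gcongr
    _ = (3 ^ (k + 1) + C1) * (X : ℝ) ^ ((k : ℝ) + 1 - δ) := by ring
    _ ≤ max ((3 * X0 : ℝ) ^ (k + 1)) (3 ^ (k + 1) + C1) * (X : ℝ) ^ ((k : ℝ) + 1 - δ) := by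
        gcongr
        exact le_max_right _ _

/-- **the theorem for one curve** -/
theorem core {a b : ℤ} (hab : 4 * a ^ 3 + 27 * b ^ 2 ≠ 0) (hT : AllTw a b) (h : HasTwists a b)
    (hL : ∀ d : ℤ, Squarefree d → ∃ F : ℂ → ℂ, IsLFun (a * d ^ 2) (b * d ^ 3) F) :
    HeatDensity a b ∧ HeatAll a b := by
  have hex : ∀ D : ℤ, ∃ F : ℂ → ℂ, Squarefree D → IsLFun (a * D ^ 2) (b * D ^ 3) F := by
    intro D
    by_cases hD : Squarefree D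
    · obtain ⟨F, hF⟩ := hL D hD
      exact ⟨F, fun _ => hF⟩
    · exact ⟨fun _ => 0, fun h => absurd h hD⟩
  choose F hF using hex
  obtain ⟨-, hlaw⟩ := Pool.Agent.Y19.QT.densityLaw_of hab h hL
  obtain ⟨hden, -⟩ := hlaw F hF
  have hd := density_mq hab h F hF hden
  exact ⟨heatDensity hab hT F hF hd, heatAll hab hT F hF hd⟩

end Pool.Agent.Helper92.AF
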