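import Pool.Agent.Helper92.HF.Fin

/-!
# Almost all twists over multiquadratic fields: the completed L-functions (helper92)
-/

set_option autoImplicit false

open NumberField IsDedekindDomain Complex Filter Topology

namespace Pool.Agent.Helper92.HF

open Pool.Agent.Y19.QT (ap)
open Pool.Agent.Y691.QT (ap_twist)
open Pool.Agent.Y692.QN (AF summable_coef fac euler decomp js_star)
open Pool.Agent.H306R2.RZ (js)
open Pool.Agent.Helper92.CM (trc)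
open Pool.Agent.Helper92.MQ (IsMQ hasProd_mq trc_ap sf sf_spec sf_squarefree jacobi_prod trv)
open Pool.Agent.W164.RC (lpoly)

/-- the completed L-function of the twist by the squarefree integer `D` -/
theorem twist_data2 {a b : ℤ} (hab : 4 * a ^ 3 + 27 * b ^ 2 ≠ 0) (hT : AllTw a b) :
    ∃ CN : ℕ, ∀ D : ℤ, Squarefree D →
    ∃ (N : ℕ) (c : ℕ → ℂ) (Λ : ℂ → ℂ), AF 0 0 N c ∧ Differentiable ℂ Λ ∧
      (∃ w : ℂ, (w = 1 ∨ w = -1) ∧ ∀ s, Λ s = w * Λ (2 - s)) ∧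
      (∀ σ₁ σ₂ : ℝ, ∃ M : ℝ, ∀ s : ℂ, σ₁ ≤ s.re → s.re ≤ σ₂ → ‖Λ s‖ ≤ M) ∧
      (∀ s : ℂ, 3 / 2 < s.re → Λ s = (N : ℂ) ^ (s / 2) * ((2 * Real.pi : ℂ) ^ (-s) * Gamma s) *
        ∑' n : ℕ, c n * (n : ℂ) ^ (-s)) ∧
      (∀ p : ℕ, p.Prime → ¬ (p : ℤ) ∣ 2 * (4 * a ^ 3 + 27 * b ^ 2) → ¬ (p : ℤ) ∣ D →
        ¬ p ∣ N ∧ c p = ((jacobiSym D p * ap a b p : ℤ) : ℂ)) ∧
      D ^ 2 ≤ (2 * (4 * a ^ 3 + 27 * b ^ 2)) ^ 2 * N ∧ (N : ℤ) ≤ CN * D ^ 2 := by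
  choose! Nf ff hff using hT
  obtain ⟨Q, hQ⟩ : ∃ Q : ℕ, Q = (2 * (4 * a ^ 3 + 27 * b ^ 2)).natAbs := ⟨_, rfl⟩
  have hQ0 : 0 < Q := by
    rw [hQ]
    exact Int.natAbs_pos.2 (mul_ne_zero two_ne_zero hab)
  have h2 : 2 ∣ Q := by
    rw [hQ, Int.natAbs_mul]
    exact dvd_mul_right _ _
  have hQd : ∀ p : ℕ, (p : ℤ) ∣ 2 * (4 * a ^ 3 + 27 * b ^ 2) ↔ p ∣ Q := fun p => by
    rw [hQ, Int.natCast_dvd]
  refine ⟨∑ g ∈ Finset.Icc (-(Q : ℤ)) Q, Nf g, fun D hD => ?_⟩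
  obtain ⟨m, g, hd, hm, hms, hmQ, hg0, hgQ, hgle⟩ := decomp hQ0 h2 D hD
  obtain ⟨N, hNd⟩ : ∃ N, N = Nf g := ⟨_, rfl⟩
  obtain ⟨f, hfd⟩ : ∃ f, f = ff g := ⟨_, rfl⟩
  have hf : AF (a * g ^ 2) (b * g ^ 3) N f := by
    rw [hNd, hfd]
    exact hff g hg0
  have hNle : N ≤ ∑ g ∈ Finset.Icc (-(Q : ℤ)) Q, Nf g := by
    rw [hNd]
    exact Finset.single_le_sum (f := Nf) (fun _ _ => Nat.zero_le _)
      (Finset.mem_Icc.2 (abs_le.1 hgle))
  have hpts : ∀ p : ℕ, p.Prime → ¬ p ∣ Q → ¬ (p : ℤ) ∣ g → ¬ p ∣ N ∧ f p = (ap (a * g ^ 2) (b * g ^ 3) p : ℂ) := by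
    intro p hp hpQ hpg
    have hpi : Prime (p : ℤ) := Nat.prime_iff_prime_int.1 hp
    refine hf.points p hp ?_
    have e : 2 * (4 * (a * g ^ 2) ^ 3 + 27 * (b * g ^ 3) ^ 2) =
        g ^ 6 * (2 * (4 * a ^ 3 + 27 * b ^ 2)) := by ring
    rw [e]
    intro h
    rcases hpi.dvd_or_dvd h with h | h
    · exact hpg (hpi.dvd_of_dvd_pow h)
    · exact hpQ ((hQd p).1 h)
  have hmN : m.Coprime N := by
    refine Nat.coprime_of_dvd fun p hp h1 h3 => ?_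
    have hpQ : ¬ p ∣ Q := fun h4 => by
      have := Nat.dvd_gcd h1 h4
      rw [hmQ] at this
      exact hp.ne_one (Nat.dvd_one.1 this)
    exact (hpts p hp hpQ (fun h => hpQ (hgQ p hp h))).1 h3
  obtain ⟨haf, Λ, h3, h4, h5, h6⟩ := tw_af hf hm hms hmN
  refine ⟨N * m ^ 2, tw f m, Λ, haf, h3, h4, h5, h6, ?_, ?_, ?_⟩
  · intro p hp hpQ hpD
    have hpQ' : ¬ p ∣ Q := fun h => hpQ ((hQd p).2 h)
    have hpg : ¬ (p : ℤ) ∣ g := fun h => hpD (by rw [hd]; exact h.mul_right _)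
    have hpm : ¬ p ∣ m := fun h => hpD (by
      rw [hd]
      exact ((Int.natCast_dvd_natCast.2 h).mul_left _).mul_left _)
    have hp2 : p ≠ 2 := by
      rintro rfl
      exact hpQ' h2
    obtain ⟨k1, k2⟩ := hpts p hp hpQ' hpg
    refine ⟨?_, ?_⟩
    · intro h
      rcases hp.dvd_mul.1 h with h | h
      · exact k1 h
      · exact hpm (hp.dvd_of_dvd_pow h)
    · have h7 := js_star hm (hp.odd_of_ne_two hp2) g
      rw [← hd] at h7
      unfold tw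
      rw [k2, ap_twist a b g p hp hp2 hpg]
      unfold js at h7 ⊢
      have h8 : (jacobiSym D p : ℤ) = jacobiSym g p * jacobiSym p m := by exact_mod_cast h7
      rw [h8]
      push_cast
      ring
  · have h7 : |D| ≤ Q * m := by
      rw [hd, abs_mul, abs_mul]
      have h8 : |(ZMod.χ₄ m : ℤ)| ≤ 1 := by
        rw [ZMod.χ₄_nat_eq_if_mod_four]
        split_ifs <;> norm_num
      have h9 : |(m : ℤ)| = m := abs_of_nonneg (Int.natCast_nonneg m)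
      rw [h9]
      calc |g| * (|(ZMod.χ₄ m : ℤ)| * m) ≤ Q * (1 * m) := by
            apply mul_le_mul hgle _ (by positivity) (by positivity)
            exact mul_le_mul_of_nonneg_right h8 (by positivity)
        _ = Q * m := by ring
    have h8 : D ^ 2 ≤ (Q * m) ^ 2 := by
      rw [← sq_abs D]
      exact pow_le_pow_left₀ (abs_nonneg _) h7 2
    have h9 : ((Q : ℤ)) ^ 2 = (2 * (4 * a ^ 3 + 27 * b ^ 2)) ^ 2 := by
      rw [hQ, Int.natCast_natAbs, sq_abs]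
    have h10 : (1 : ℤ) ≤ N := by exact_mod_cast hf.pos
    calc D ^ 2 ≤ (Q * m) ^ 2 := h8
      _ = (Q : ℤ) ^ 2 * (1 * (m : ℤ) ^ 2) := by ring
      _ ≤ (Q : ℤ) ^ 2 * (N * (m : ℤ) ^ 2) := by
          apply mul_le_mul_of_nonneg_left _ (by positivity)
          exact mul_le_mul_of_nonneg_right h10 (by positivity)
      _ = _ := by
          rw [h9]
          push_cast
          ring
  · have h9 : m ^ 2 ≤ D.natAbs ^ 2 := by
      have h10 : m ≤ D.natAbs := by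
        have h11 : (ZMod.χ₄ m : ℤ).natAbs = 1 := by
          rw [ZMod.χ₄_nat_eq_if_mod_four]
          have h12 : m % 2 ≠ 0 := by
            rw [Nat.odd_iff.1 hm]
            norm_num
          rw [if_neg h12]
          split_ifs <;> rfl
        rw [hd, Int.natAbs_mul, Int.natAbs_mul, h11, Int.natAbs_natCast, one_mul]
        exact Nat.le_mul_of_pos_left _ (Int.natAbs_pos.2 hg0)
      exact Nat.pow_le_pow_left h10 2
    have h10 : ((N * m ^ 2 : ℕ) : ℤ) ≤ (((∑ g ∈ Finset.Icc (-(Q : ℤ)) Q, Nf g) * D.natAbs ^ 2 : ℕ) : ℤ) := by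
      exact_mod_cast Nat.mul_le_mul hNle h9
    refine h10.trans (le_of_eq ?_)
    rw [Nat.cast_mul, Nat.cast_pow, Int.natCast_natAbs, sq_abs]


end Pool.Agent.Helper92.HF
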