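import Pool.Agent.Helper92.AF.Tw2

/-!
# Almost all twists over multiquadratic fields: the completed L-functions, second part (helper92)
-/

set_option autoImplicit false

open NumberField IsDedekindDomain Complex Filter Topology

namespace Pool.Agent.Helper92.HF

open Pool.Agent.Y19.QT (ap Fam IsLFun)
open Pool.Agent.Y692.QN (AF summable_coef fac fac_ne_zero euler)
open Pool.Agent.Helper92.CM (trc)
open Pool.Agent.Helper92.MQ (IsMQ hasProd_mq trc_ap sf sf_spec sf_squarefree jacobi_prod trv strip eD eD_eq)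
open Pool.Agent.W164.RC (lpoly)

/-- the set `{0} ∪ (S + 1)` -/
def ins {k : ℕ} (S : Finset (Fin k)) : Finset (Fin (k + 1)) := insert 0 (S.map (Fin.succEmb k))

lemma ins_nonempty {k : ℕ} (S : Finset (Fin k)) : (ins S).Nonempty := ⟨0, Finset.mem_insert_self _ _⟩

lemma prod_ins {k : ℕ} {M : Type} [CommMonoid M] (f : Fin (k + 1) → M) (S : Finset (Fin k)) :
    ∏ i ∈ ins S, f i = f 0 * ∏ i ∈ S, f i.succ := by
  classical
  unfold ins
  rw [Finset.prod_insert, Finset.prod_map]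
  · rfl
  · intro h
    rw [Finset.mem_map] at h
    obtain ⟨i, -, hi⟩ := h
    exact Fin.succ_ne_zero i hi

lemma dvd_tw {a b n n' : ℤ} {k : ℕ} {d : Fin (k + 1) → ℤ}
    (hn : n = 2 * (4 * a ^ 3 + 27 * b ^ 2) * ∏ i, d i)
    (hn' : n' = 2 * (4 * (a * d 0 ^ 2) ^ 3 + 27 * (b * d 0 ^ 3) ^ 2) * ∏ i : Fin k, d i.succ)
    (hd : d 0 ≠ 0) {p : ℕ} (hp : p.Prime) : (p : ℤ) ∣ n' ↔ (p : ℤ) ∣ n := by
  have hpi : Prime (p : ℤ) := Nat.prime_iff_prime_int.1 hp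
  rw [Fin.prod_univ_succ] at hn
  have e1 : n' = d 0 ^ 5 * n := by rw [hn, hn']; ring
  constructor
  · intro h
    rw [e1] at h
    rcases hpi.dvd_or_dvd h with h | h
    · rw [hn]
      exact ((hpi.dvd_of_dvd_pow h).mul_right _).mul_left _
    · exact h
  · intro h
    rw [e1]
    exact h.mul_left _

open Classical in
theorem hasProd_T {a b n n' : ℤ} {k : ℕ} {d : Fin (k + 1) → ℤ} (hd0 : ∀ i, d i ≠ 0)
    (hn : n = 2 * (4 * a ^ 3 + 27 * b ^ 2) * ∏ i, d i) (hn0 : n ≠ 0)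
    (hn' : n' = 2 * (4 * (a * d 0 ^ 2) ^ 3 + 27 * (b * d 0 ^ 3) ^ 2) * ∏ i : Fin k, d i.succ)
    (S : Finset (Fin k)) {N : ℕ} {c : ℕ → ℂ} (hf : AF 0 0 N c)
    (hpt : ∀ p : ℕ, p.Prime → ¬ (p : ℤ) ∣ 2 * (4 * a ^ 3 + 27 * b ^ 2) →
      ¬ (p : ℤ) ∣ sf (∏ i ∈ ins S, d i) → ¬ p ∣ N ∧
        c p = ((jacobiSym (sf (∏ i ∈ ins S, d i)) p * ap a b p : ℤ) : ℂ)) {s : ℂ} (hs : 3 / 2 < s.re) :
    HasProd (fun p : Nat.Primes => if ((p : ℕ) : ℤ) ∣ n' then 1 else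
      (lpoly ((∏ i ∈ S, jacobiSym (d i.succ) p) * trc (ZMod p) (a * d 0 ^ 2) (b * d 0 ^ 3)) 1 p s)⁻¹)
      ((∑' n : ℕ, c n * (n : ℂ) ^ (-s)) * ∏ p ∈ n'.natAbs.primeFactors, fac N c p s) := by
  have hn0' : n' ≠ 0 := by
    intro h
    have h1 := (dvd_tw hn hn' (hd0 0) (p := 2) Nat.prime_two)
    rw [Fin.prod_univ_succ] at hn
    have e1 : n' = d 0 ^ 5 * n := by rw [hn, hn']; ring
    rw [e1] at h
    rcases mul_eq_zero.1 h with h | h
    · exact hd0 0 (pow_eq_zero_iff (by norm_num) |>.1 h)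
    · exact hn0 h
  have hB : n'.natAbs.primeFactors = n.natAbs.primeFactors := by
    ext p
    rw [Nat.mem_primeFactors, Nat.mem_primeFactors]
    constructor
    · rintro ⟨h1, h2, -⟩
      refine ⟨h1, ?_, Int.natAbs_ne_zero.2 hn0⟩
      rw [← Int.natCast_dvd] at h2 ⊢
      exact (dvd_tw hn hn' (hd0 0) h1).1 h2
    · rintro ⟨h1, h2, -⟩
      refine ⟨h1, ?_, Int.natAbs_ne_zero.2 hn0'⟩
      rw [← Int.natCast_dvd] at h2 ⊢
      exact (dvd_tw hn hn' (hd0 0) h1).2 h2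
  rw [hB]
  refine (hasProd_S hd0 hn hn0 (ins S) hf hpt hs).congr_fun fun p => ?_
  have hp := p.2
  by_cases h : ((p : ℕ) : ℤ) ∣ n
  · rw [if_pos h, if_pos ((dvd_tw hn hn' (hd0 0) hp).2 h)]
  rw [if_neg h, if_neg (fun h1 => h ((dvd_tw hn hn' (hd0 0) hp).1 h1))]
  have hne : NeZero (p : ℕ) := ⟨hp.ne_zero⟩
  have hp2 : (p : ℕ) ≠ 2 := by
    intro h2
    apply h
    rw [h2, hn]
    exact (dvd_mul_right _ _).mul_right _
  have hpd : ¬ ((p : ℕ) : ℤ) ∣ d 0 := fun h3 => h (by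
    rw [hn]
    exact (h3.trans (Finset.dvd_prod_of_mem _ (Finset.mem_univ 0))).mul_left _)
  have h3 := Pool.Agent.Y705.QT.ap_twist a b (d 0) p hp hp2 hpd
  have h4 : ((ap (a * d 0 ^ 2) (b * d 0 ^ 3) p : ℤ) : ℝ) =
      ((jacobiSym (d 0) p : ℤ) : ℝ) * (ap a b p : ℝ) := h3
  have h5 : (ap (a * d 0 ^ 2) (b * d 0 ^ 3) p : ℤ) = jacobiSym (d 0) p * ap a b p := by exact_mod_cast h4
  have h6 : (∏ i ∈ S, jacobiSym (d i.succ) p) * trc (ZMod p) (a * d 0 ^ 2) (b * d 0 ^ 3) =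
      (∏ i ∈ ins S, jacobiSym (d i) p) * trc (ZMod p) a b := by
    rw [trc_ap, trc_ap, h5, prod_ins (fun i => jacobiSym (d i) p)]
    ring
  rw [h6]

/-- the zeros of the completed L-function of a twist are zeros of the L-function -/
theorem zero_T {a b n : ℤ} {m : ℕ} {d : Fin m → ℤ} (hd0 : ∀ i, d i ≠ 0)
    (hn : n = 2 * (4 * a ^ 3 + 27 * b ^ 2) * ∏ i, d i) (hn0 : n ≠ 0) (S : Finset (Fin m)) {N : ℕ}
    {c : ℕ → ℂ} (hf : AF 0 0 N c)
    (hpt : ∀ p : ℕ, p.Prime → ¬ (p : ℤ) ∣ 2 * (4 * a ^ 3 + 27 * b ^ 2) →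
      ¬ (p : ℤ) ∣ sf (∏ i ∈ S, d i) → ¬ p ∣ N ∧
        c p = ((jacobiSym (sf (∏ i ∈ S, d i)) p * ap a b p : ℤ) : ℂ))
    {F : ℂ → ℂ} (hF : IsLFun (a * sf (∏ i ∈ S, d i) ^ 2) (b * sf (∏ i ∈ S, d i) ^ 3) F)
    {Λ : ℂ → ℂ} (hΛ : Differentiable ℂ Λ)
    (he : ∀ s : ℂ, 3 / 2 < s.re → Λ s = (N : ℂ) ^ (s / 2) * ((2 * Real.pi : ℂ) ^ (-s) * Gamma s) *
        ∑' n : ℕ, c n * (n : ℂ) ^ (-s)) {ρ : ℂ} (hρ : 1 / 2 < ρ.re) (h0 : Λ ρ = 0) : F ρ = 0 := by
  classical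
  obtain ⟨G, hG1, hG2, hG3⟩ := strip hF hn0
  have hN : (N : ℂ) ≠ 0 := by
    have := hf.pos
    exact_mod_cast this.ne'
  have hpi : (2 * Real.pi : ℂ) ≠ 0 := by
    have := Real.pi_ne_zero
    exact_mod_cast (mul_ne_zero two_ne_zero this)
  have hval : ∀ s : ℂ, 3 / 2 < s.re → G s = (∑' n : ℕ, c n * (n : ℂ) ^ (-s)) *
      ∏ p ∈ n.natAbs.primeFactors, fac N c p s := by
    intro s hs
    refine (hG2 s hs).unique ((hasProd_S hd0 hn hn0 S hf hpt hs).congr_fun fun p => ?_)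
    by_cases h : ((p : ℕ) : ℤ) ∣ n
    · rw [if_pos h, if_pos h]
    · have hne : NeZero (p : ℕ) := ⟨p.2.ne_zero⟩
      rw [if_neg h, if_neg h, eD_eq hd0 hn S p.2 h s, trc_ap]
  have hfac : ∀ p ∈ n.natAbs.primeFactors, Differentiable ℂ (fun s => fac N c p s) := by
    intro p hp
    have hp0 : (p : ℂ) ≠ 0 := by
      have := (Nat.prime_of_mem_primeFactors hp).ne_zero
      exact_mod_cast this
    unfold fac
    by_cases h : p ∣ N
    · simp only [if_pos h]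
      fun_prop (disch := simp [hp0])
    · simp only [if_neg h]
      fun_prop (disch := simp [hp0])
  have hGi : Differentiable ℂ (fun s : ℂ => (Gamma s)⁻¹) := Complex.differentiable_one_div_Gamma
  have hf1 : Differentiable ℂ (fun s => Λ s * (∏ p ∈ n.natAbs.primeFactors, fac N c p s) * (Gamma s)⁻¹) :=
    (hΛ.mul (Differentiable.fun_finsetProd hfac)).mul hGi
  have hf2 : Differentiable ℂ (fun s : ℂ => (N : ℂ) ^ (s / 2) * (2 * Real.pi : ℂ) ^ (-s) * G s) := by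
    refine Differentiable.mul (Differentiable.mul ?_ ?_) hG1
    · exact Differentiable.const_cpow (differentiable_id.div_const 2) (Or.inl hN)
    · exact Differentiable.const_cpow differentiable_id.neg (Or.inl hpi)
  have heq : (fun s => Λ s * (∏ p ∈ n.natAbs.primeFactors, fac N c p s) * (Gamma s)⁻¹) =
      (fun s : ℂ => (N : ℂ) ^ (s / 2) * (2 * Real.pi : ℂ) ^ (-s) * G s) := by
    refine AnalyticOnNhd.eq_of_eventuallyEq (z₀ := (2 : ℂ)) (fun z _ => hf1.analyticAt z)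
      (fun z _ => hf2.analyticAt z) ?_
    have hmem : {s : ℂ | (3 : ℝ) / 2 < s.re} ∈ 𝓝 (2 : ℂ) :=
      (isOpen_lt continuous_const Complex.continuous_re).mem_nhds (by
        show (3 : ℝ) / 2 < (2 : ℂ).re
        norm_num)
    filter_upwards [hmem] with z hz
    have hz' : (3 : ℝ) / 2 < z.re := hz
    have hG : Gamma z ≠ 0 := Gamma_ne_zero_of_re_pos (by linarith)
    rw [he z hz', hval z hz']
    field_simp
  have h1 := congrFun heq ρ
  simp only [h0, zero_mul] at h1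
  have h2 : G ρ = 0 := by
    have h3 := h1.symm
    rcases mul_eq_zero.1 h3 with h4 | h4
    · exfalso
      rcases mul_eq_zero.1 h4 with h5 | h5
      · exact hN ((cpow_eq_zero_iff _ _).1 h5).1
      · exact hpi ((cpow_eq_zero_iff _ _).1 h5).1
    · exact h4
  by_contra hcon
  have h3 := hG3 ρ hρ
  rw [(hF.1.analyticAt ρ).analyticOrderAt_eq_zero.2 hcon] at h3
  exact ((hG1.analyticAt ρ).analyticOrderAt_eq_zero.1 h3) h2

end Pool.Agent.Helper92.HF
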