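import Pool.Agent.Helper92.AF.Tw3

/-!
# Almost all twists over multiquadratic fields: the completed L-functions, third part (helper92)
-/

set_option autoImplicit false

open NumberField IsDedekindDomain Complex Filter Topology

namespace Pool.Agent.Helper92.HF

open Pool.Agent.Y19.QT (ap Fam IsLFun)
open Pool.Agent.Y692.QN (AF summable_coef fac fac_ne_zero euler)
open Pool.Agent.Helper92.CM (trc)
open Pool.Agent.Helper92.MQ (IsMQ hasProd_mq trc_ap sf sf_spec sf_squarefree jacobi_prod trv sf_abs_le)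
open Pool.Agent.W164.RC (lpoly)

/-- **the completed L-functions of the twists over a multiquadratic field** -/
theorem comp_tw {a b : ℤ} (hab : 4 * a ^ 3 + 27 * b ^ 2 ≠ 0) (hT : AllTw a b)
    (F : ℤ → ℂ → ℂ) (hF : ∀ D : ℤ, Squarefree D → IsLFun (a * D ^ 2) (b * D ^ 3) (F D)) :
    ∃ CN : ℕ, ∀ (k : ℕ) (d : Fin (k + 1) → ℤ) (K : Type) [Field K] [NumberField K] (x : Fin k → K),
      IsMQ (fun i : Fin k => d i.succ) K x → (∀ i, d i ≠ 0) → Squarefree (d 0) →
      ∃ (P : ℕ → Polynomial ℝ) (A : ℝ) (Λ : ℂ → ℂ),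
      Comp K (a * d 0 ^ 2) (b * d 0 ^ 3)
        (2 * (4 * (a * d 0 ^ 2) ^ 3 + 27 * (b * d 0 ^ 3) ^ 2) * ∏ i : Fin k, d i.succ) P A Λ ∧
      ((d 0 : ℤ) : ℝ) ^ 2 ≤ ((2 * (4 * a ^ 3 + 27 * b ^ 2) : ℤ) : ℝ) ^ 2 * A ∧
      (∀ X : ℕ, (∀ i, |d i| ≤ X) → A ≤ ((CN : ℝ) * (X : ℝ) ^ (2 * (k + 1))) ^ (2 ^ k)) ∧
      ∀ ρ : ℂ, 1 / 2 < ρ.re → Λ ρ = 0 → ∃ S : Finset (Fin k), F (sf (∏ i ∈ ins S, d i)) ρ = 0 := by
  classical
  obtain ⟨CN, htwd⟩ := twist_data2 hab hT
  refine ⟨CN, fun k d K _ _ x h hd hsq => ?_⟩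
  obtain ⟨n, hn⟩ : ∃ n : ℤ, n = 2 * (4 * a ^ 3 + 27 * b ^ 2) * ∏ i, d i := ⟨_, rfl⟩
  have hn0 : n ≠ 0 := by
    rw [hn]
    exact mul_ne_zero (mul_ne_zero two_ne_zero hab) (Finset.prod_ne_zero_iff.2 fun i _ => hd i)
  obtain ⟨n', hn'⟩ : ∃ n' : ℤ, n' = 2 * (4 * (a * d 0 ^ 2) ^ 3 + 27 * (b * d 0 ^ 3) ^ 2) *
    ∏ i : Fin k, d i.succ := ⟨_, rfl⟩
  rw [← hn']
  have htw := fun S : Finset (Fin k) => htwd _ (sf_squarefree (∏ i ∈ ins S, d i))
  choose N c Λ haf hdiff hfe hbd heu hpt hle hup using htw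
  have hNpos : ∀ S, 0 < N S := fun S => (haf S).pos
  have hAN : 0 < ∏ S : Finset (Fin k), N S := Finset.prod_pos fun S _ => hNpos S
  have hcardS : (Finset.univ : Finset (Finset (Fin k))).card = 2 ^ k := by
    rw [Finset.card_univ, Fintype.card_finset, Fintype.card_fin]
  refine ⟨fun p => ∏ S, epol (N S) (c S) p, ((∏ S, N S : ℕ) : ℝ), fun s => ∏ S, Λ S s, ?_, ?_, ?_, ?_⟩
  · refine
      { one_le := by exact_mod_cast hAN
        two := ?_
        poly := fun p hp => ?_
        entire := Differentiable.fun_finsetProd fun S _ => hdiff S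
        growth := fun σ₁ σ₂ => ?_
        euler := fun s hs => ?_
        fe := ?_ }
    · rw [hn']
      exact (dvd_mul_right _ _).mul_right _
    · have hpp := Nat.prime_of_mem_primeFactors hp
      refine ⟨?_, ?_, fun y hy => ?_⟩
      · rw [Polynomial.coeff_zero_eq_eval_zero, Polynomial.eval_prod]
        exact Finset.prod_eq_one fun S _ => epol_coeff _ _ _
      · refine (Polynomial.natDegree_prod_le _ _).trans ?_
        refine (Finset.sum_le_sum fun S _ => epol_deg (N S) (c S) p).trans ?_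
        rw [Finset.sum_const, hcardS, h.deg, smul_eq_mul]
        exact le_of_eq (mul_comm _ _)
      · rw [map_prod, Finset.prod_ne_zero_iff]
        exact fun S _ => epol_root (haf S) hpp hy
    · choose M hM using fun S => hbd S σ₁ σ₂
      refine ⟨∏ S, |M S|, fun s h1 h2 => ?_⟩
      have h3 : 0 ≤ ∏ S, |M S| := Finset.prod_nonneg fun S _ => abs_nonneg _
      rw [norm_prod]
      calc ∏ S, ‖Λ S s‖ ≤ ∏ S, |M S| :=
            Finset.prod_le_prod (fun S _ => norm_nonneg _) fun S _ => (hM S s h1 h2).trans (le_abs_self _)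
        _ ≤ (∏ S, |M S|) * (1 + |s.im|) := by
            have := abs_nonneg s.im
            nlinarith
        _ ≤ Real.exp ((∏ S, |M S|) * (1 + |s.im|)) := by
            have := Real.add_one_le_exp ((∏ S, |M S|) * (1 + |s.im|))
            linarith
    · have hmq := hasProd_mq h hn' s hs (fun S => (∑' n : ℕ, c S n * (n : ℂ) ^ (-s)) *
        ∏ p ∈ n'.natAbs.primeFactors, fac (N S) (c S) p s)
        (fun S => hasProd_T hd hn hn0 hn' S (haf S) (hpt S) hs)
      have hEG : EG K (a * d 0 ^ 2) (b * d 0 ^ 3) n' s = ∏ S, ((∑' n : ℕ, c S n * (n : ℂ) ^ (-s)) *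
          ∏ p ∈ n'.natAbs.primeFactors, fac (N S) (c S) p s) := by
        rw [← hmq.tprod_eq]
        unfold EG
        congr 1
        funext v
        unfold gp
        split_ifs <;> simp
      have hEQ : EQ n' (fun p => ∏ S, epol (N S) (c S) p) s =
          ∏ p ∈ n'.natAbs.primeFactors, (∏ S, fac (N S) (c S) p s)⁻¹ := by
        unfold EQ
        refine Finset.prod_congr rfl fun p hp => ?_
        rw [map_prod]
        congr 1
        exact Finset.prod_congr rfl fun S _ => epol_fac (haf S) (Nat.prime_of_mem_primeFactors hp) s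
      have hprod : EG K (a * d 0 ^ 2) (b * d 0 ^ 3) n' s * EQ n' (fun p => ∏ S, epol (N S) (c S) p) s =
          ∏ S, ∑' n : ℕ, c S n * (n : ℂ) ^ (-s) := by
        have h9 : ∏ p ∈ n'.natAbs.primeFactors, ((∏ S, fac (N S) (c S) p s) *
            (∏ S, fac (N S) (c S) p s)⁻¹) = 1 := by
          refine Finset.prod_eq_one fun p hp => ?_
          have hpp := Nat.prime_of_mem_primeFactors hp
          apply mul_inv_cancel₀
          rw [Finset.prod_ne_zero_iff]
          exact fun S _ => fac_ne_zero (haf S) hs hpp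
        rw [hEG, hEQ, Finset.prod_mul_distrib, mul_assoc, Finset.prod_comm, ← Finset.prod_mul_distrib,
          h9, mul_one]
      rw [hprod, h.deg, Finset.prod_congr rfl fun S _ => heu S s hs, Finset.prod_mul_distrib,
        Finset.prod_mul_distrib, Finset.prod_const, hcardS, Complex.ofReal_natCast, natCast_prod_cpow]
    · choose w hw hwe using hfe
      refine ⟨∏ S, w S, prod_sign _ _ hw, fun s => ?_⟩
      rw [← Finset.prod_mul_distrib]
      exact Finset.prod_congr rfl fun S _ => hwe S s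
  · have h1 : d 0 = sf (∏ i ∈ ins (∅ : Finset (Fin k)), d i) := by
      rw [prod_ins, Finset.prod_empty, mul_one]
      exact sf_unique (hd 0) hsq ⟨1, by ring⟩
    have h2 := hle ∅
    rw [← h1] at h2
    have h3 : N ∅ ≤ ∏ S, N S :=
      Finset.single_le_prod' (f := N) (fun S _ => hNpos S) (Finset.mem_univ ∅)
    have h4 : (d 0) ^ 2 ≤ (2 * (4 * a ^ 3 + 27 * b ^ 2)) ^ 2 * ((∏ S, N S : ℕ) : ℤ) :=
      h2.trans (mul_le_mul_of_nonneg_left (by exact_mod_cast h3) (sq_nonneg _))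
    exact_mod_cast h4
  · intro X hX
    have h1 : ∀ S, (N S : ℝ) ≤ (CN : ℝ) * (X : ℝ) ^ (2 * (k + 1)) := by
      intro S
      have hX1 : (1 : ℤ) ≤ X := le_trans (Int.one_le_abs (hd 0)) (hX 0)
      have hne : ∏ i ∈ ins S, d i ≠ 0 := Finset.prod_ne_zero_iff.2 fun i _ => hd i
      have h2 : |sf (∏ i ∈ ins S, d i)| ≤ (X : ℤ) ^ (k + 1) := by
        refine (sf_abs_le hne).trans ?_
        rw [Finset.abs_prod]
        calc ∏ i ∈ ins S, |d i| ≤ ∏ _i ∈ ins S, (X : ℤ) :=
              Finset.prod_le_prod (fun i _ => abs_nonneg _) fun i _ => hX i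
          _ = (X : ℤ) ^ (ins S).card := by rw [Finset.prod_const]
          _ ≤ (X : ℤ) ^ (k + 1) := by
              apply pow_le_pow_right₀ hX1
              have := Finset.card_le_univ (ins S)
              rwa [Fintype.card_fin] at this
      have h3 : (N S : ℤ) ≤ CN * (X : ℤ) ^ (2 * (k + 1)) := by
        refine (hup S).trans (mul_le_mul_of_nonneg_left ?_ (Int.natCast_nonneg _))
        rw [← sq_abs, mul_comm 2 (k + 1), pow_mul]
        exact pow_le_pow_left₀ (abs_nonneg _) h2 2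
      exact_mod_cast h3
    push_cast
    calc ∏ S, (N S : ℝ) ≤ ∏ _S : Finset (Fin k), (CN : ℝ) * (X : ℝ) ^ (2 * (k + 1)) :=
          Finset.prod_le_prod (fun S _ => Nat.cast_nonneg _) fun S _ => h1 S
      _ = _ := by rw [Finset.prod_const, hcardS]
  · intro ρ hρ h0
    obtain ⟨S, -, hS⟩ := Finset.prod_eq_zero_iff.1 h0
    exact ⟨S, zero_T hd hn hn0 (ins S) (haf S) (hpt S) (hF _ (sf_squarefree _)) (hdiff S) (heu S) hρ hS⟩

end Pool.Agent.Helper92.HF
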